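import Pool.Agent.H.MP_68c508_lc.C

set_option autoImplicit false

namespace Pool.Agent.Results.MP_68c508_lc.Undec

open Pool.Agent.H.MP_68c508_lc Pool.Agent.Lib.helper4.GFO Pool.Agent.Lib.helper21

theorem result :
    ¬∃ f : ℕ →. Bool, Partrec f ∧ ∀ φ : Fm 0, ∃ b ∈ f φ.code, (b = true ↔ φ.Sat Grig Fin.elim0) := by
  obtain ⟨Q, _, M, q, h⟩ := Queue.exists_cm0
  cases nonempty_fintype Q
  let r : Q → Fin (Finset.univ.sup M.reg + 1) := fun q => ⟨_, Nat.lt_succ_of_le (Finset.le_sup (Finset.mem_univ q))⟩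
  let c := Fintype.equivFin (Option (Fin (Finset.univ.sup M.reg + 1) ⊕ Q))
  refine undec (d_phi M r q (c none) (fun i => c (some (.inl i))) fun q => c (some (.inr q))).exN _ h fun m φ e => ?_
  rw [e]
  refine ⟨fun ⟨v, a⟩ => sound (fun _ => rfl) a, fun a => ?_⟩
  obtain ⟨z, fr, fq, a⟩ := complete (r := r) (fun _ => rfl) a
  exact ⟨fun i => (c.symm i).elim z (Sum.elim fr fq), by simpa using a⟩

end Pool.Agent.Results.MP_68c508_lc.Undec
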